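import Pool.Agent.V11300.CH.Main

/-!
# MP_63ed06_co, Q1 (negative answer)

For every `2 ≤ d ≤ n` no optimal `d`-intersecting family of chains in `[n]` consists only of chains
containing `X_0, …, X_{d-1}`; such families are smaller than the optimum by a factor at least
`(n - d + 2) / 2`.
-/

namespace Pool.Agent.Results.MP_63ed06_co.NoInitialSegment

open Pool.Agent.V11300.CH

theorem result :
    (∀ n d : ℕ, 2 ≤ d → d ≤ n → ∃ G, DInt n d G ∧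
      ∀ F, DInt n d F → (∀ C ∈ F, ∀ j < d, X n j ∈ C) →
        (n - d + 2) * F.card + 2 ≤ 2 * G.card) ∧
    (∀ n d : ℕ, 2 ≤ d → d ≤ n → ¬ ∃ F, Optimal n d F ∧ ∀ C ∈ F, ∀ j < d, X n j ∈ C) ∧
    (∀ ε : ℝ, 0 < ε → ε < 1 → ∃ n₀ : ℕ, ∀ n ≥ n₀, ∃ d : ℕ, 1 ≤ d ∧ (d : ℝ) ≤ n * (1 - ε) ∧
      ¬ ∃ F, Optimal n d F ∧ ∀ C ∈ F, ∀ j < d, X n j ∈ C) := by
  refine ⟨fun n d h2 hd => ⟨G n d, G_dint (by omega) hd, fun F hF hX =>
    star_bound h2 hd F hF.1 hX⟩, fun n d h2 hd => not_optimal h2 hd, fun ε h0 h1 => ?_⟩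
  obtain ⟨m, hm⟩ := exists_nat_gt (2 / (1 - ε))
  have hpos : 0 < 1 - ε := by linarith
  refine ⟨max m 2, fun n hn => ⟨2, by norm_num, ?_, not_optimal le_rfl (le_trans (le_max_right _ _) hn)⟩⟩
  have h3 : (m : ℝ) ≤ n := by exact_mod_cast le_trans (le_max_left _ _) hn
  have h4 : 2 / (1 - ε) < n := lt_of_lt_of_le hm h3
  rw [div_lt_iff₀ hpos] at h4
  push_cast
  linarith

end Pool.Agent.Results.MP_63ed06_co.NoInitialSegment
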